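import Pool.Agent.Helper65.L1.GenZ

/-!
# L1, part 5: boundedness of the cone

`InC B P R x` : `x` lies in the cone of vectors within hyperbolic distance `arcosh R` of `x0`.
If every point of the cone `D` which lies on one of the walls has this property then every point
of `D` has it; the walls are treated by certificates (sums of products of wall functionals), or by
going down to the ridges.
-/

open Filter Topology Module H77T2

namespace Pool.Agent.Helper65.L1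

variable {V : Type*} [AddCommGroup V] [Module ℝ V] {ι : Type*}

/-- `x` is in the cone of radius `R` around the base direction -/
def InC (B : V →ₗ[ℝ] V →ₗ[ℝ] ℝ) (P : Dual ℝ V) (R : ℝ) (x : V) : Prop :=
  0 ≤ P x ∧ P x ^ 2 ≤ R ^ 2 * B x x

/-- going down to the boundary: `p` is a point in the interior of the face -/
theorem exists_boundary [Finite ι] (N : ι → Dual ℝ V) {p x : V} {T : Set ι}
    (hp : ∀ w ∈ T, 0 < N w p) (hp0 : ∀ w ∉ T, N w p = 0) (hT : T.Nonempty)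
    (hx : ∀ w, 0 ≤ N w x) :
    ∃ μ : ℝ, 0 ≤ μ ∧ (∀ w, 0 ≤ N w (x - μ • p)) ∧ ∃ s ∈ T, N s (x - μ • p) = 0 := by
  have hTf : T.Finite := Set.toFinite T
  obtain ⟨s, hs, hmin⟩ := Set.exists_min_image T (fun w => N w x / N w p) hTf hT
  refine ⟨N s x / N s p, div_nonneg (hx s) (hp s hs).le, ?_, s, hs, ?_⟩
  · intro w
    rw [map_sub, map_smul, smul_eq_mul]
    by_cases hw : w ∈ T
    · have h1 := hmin w hw
      have h2 := hp w hw
      rw [le_div_iff₀ h2] at h1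
      linarith
    · rw [hp0 w hw, mul_zero, sub_zero]
      exact hx w
  · rw [map_sub, map_smul, smul_eq_mul, div_mul_cancel₀ _ (hp s hs).ne', sub_self]

/-- adding a multiple of `p` -/
theorem inC_add {B : V →ₗ[ℝ] V →ₗ[ℝ] ℝ} (hB : ∀ v w, B v w = B w v) {P : Dual ℝ V} {R : ℝ}
    {x p : V} (hx : InC B P R x) (hp : InC B P R p) (hc : P x * P p ≤ R ^ 2 * B x p) {μ : ℝ}
    (hμ : 0 ≤ μ) : InC B P R (x + μ • p) := by
  obtain ⟨h1, h2⟩ := hx
  obtain ⟨h3, h4⟩ := hp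
  refine ⟨?_, ?_⟩
  · rw [map_add, map_smul, smul_eq_mul]
    positivity
  · rw [map_add, map_smul, smul_eq_mul]
    have e : B (x + μ • p) (x + μ • p) = B x x + 2 * μ * B x p + μ ^ 2 * B p p := by
      simp only [map_add, map_smul, LinearMap.add_apply, LinearMap.smul_apply, smul_eq_mul]
      rw [hB p x]
      ring
    rw [e]
    have h5 : μ * (P x * P p) ≤ μ * (R ^ 2 * B x p) := mul_le_mul_of_nonneg_left hc hμ
    have h6 : μ ^ 2 * P p ^ 2 ≤ μ ^ 2 * (R ^ 2 * B p p) :=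
      mul_le_mul_of_nonneg_left h4 (sq_nonneg μ)
    nlinarith

/-- reduction to the walls -/
theorem inC_of_walls [Finite ι] [Nonempty ι] {N : ι → Dual ℝ V} {B : V →ₗ[ℝ] V →ₗ[ℝ] ℝ}
    (hB : ∀ v w, B v w = B w v) {x0 : V} (hx0 : B x0 x0 = 1) {R : ℝ} (hR : 1 ≤ R)
    (hint : ∀ w, 0 < N w x0)
    (hw : ∀ s x, N s x = 0 → (∀ w, 0 ≤ N w x) → InC B (B.flip x0) R x)
    {x : V} (hx : ∀ w, 0 ≤ N w x) : InC B (B.flip x0) R x := by
  obtain ⟨μ, hμ, h1, s, -, h2⟩ := exists_boundary N (p := x0) (T := Set.univ)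
    (fun w _ => hint w) (fun w hw' => absurd (Set.mem_univ w) hw') Set.univ_nonempty hx
  have h3 := hw s _ h2 h1
  have h4 : x = (x - μ • x0) + μ • x0 := by abel
  rw [h4]
  have hR2 : 1 ≤ R ^ 2 := by nlinarith
  have e0 : B.flip x0 x0 = 1 := hx0
  apply inC_add hB h3 _ _ hμ
  · refine ⟨by rw [e0]; exact zero_le_one, ?_⟩
    rw [e0, hx0]
    linarith
  · rw [e0, mul_one]
    have h5 : B (x - μ • x0) x0 = B.flip x0 (x - μ • x0) := rfl
    rw [h5]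
    have h6 := h3.1
    nlinarith

/-- reduction from a wall to the ridges on it -/
theorem inC_of_ridges [Finite ι] {N : ι → Dual ℝ V} {B : V →ₗ[ℝ] V →ₗ[ℝ] ℝ}
    (hB : ∀ v w, B v w = B w v) {P : Dual ℝ V} {R : ℝ} {s : ι} {p : V}
    (hp0 : N s p = 0) (hp : ∀ w, w ≠ s → 0 < N w p) (hpC : InC B P R p)
    (hcross : ∀ x, N s x = 0 → (∀ w, 0 ≤ N w x) → P x * P p ≤ R ^ 2 * B x p)
    (hne : ∃ t, t ≠ s)
    (hw : ∀ t, t ≠ s → ∀ x, N s x = 0 → N t x = 0 → (∀ w, 0 ≤ N w x) → InC B P R x)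
    {x : V} (hx0 : N s x = 0) (hx : ∀ w, 0 ≤ N w x) : InC B P R x := by
  obtain ⟨μ, hμ, h1, t, ht, h2⟩ := exists_boundary N (p := p) (T := {w | w ≠ s})
    (fun w hw' => hp w hw') (fun w hw' => by
      have : w = s := by
        by_contra h
        exact hw' h
      rw [this, hp0]) hne hx
  have h3 : N s (x - μ • p) = 0 := by
    rw [map_sub, map_smul, hx0, hp0, smul_zero, sub_zero]
  have h4 : x = (x - μ • p) + μ • p := by abel
  rw [h4]
  exact inC_add hB (hw t ht _ h3 h2 h1) hpC (hcross _ h3 h1) hμ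

/-- a certificate: a quadratic form which is a nonnegative combination of products of wall
functionals, modulo multiples of the functionals that vanish -/
theorem inC_of_cert {N : ι → Dual ℝ V} {B : V →ₗ[ℝ] V →ₗ[ℝ] ℝ} {P : Dual ℝ V} {R : ℝ}
    {κ κ' : Type*} [Fintype κ] [Fintype κ'] (c : κ → ℝ) (u v : κ → ι) (hc : ∀ k, 0 ≤ c k)
    (c' : κ' → ℝ) (u' : κ' → ι) (hc' : ∀ k, 0 ≤ c' k) {x : V} (hx : ∀ w, 0 ≤ N w x)
    (h1 : P x = ∑ k, c' k * N (u' k) x)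
    (h2 : R ^ 2 * B x x - P x ^ 2 = ∑ k, c k * (N (u k) x * N (v k) x)) :
    InC B P R x := by
  refine ⟨?_, ?_⟩
  · rw [h1]
    exact Finset.sum_nonneg fun k _ => mul_nonneg (hc' k) (hx _)
  · have h3 : 0 ≤ ∑ k, c k * (N (u k) x * N (v k) x) :=
      Finset.sum_nonneg fun k _ => mul_nonneg (hc k) (mul_nonneg (hx _) (hx _))
    linarith

/-- the form `ε P² ≤ B` of the certificate -/
theorem inC_of_ge {B : V →ₗ[ℝ] V →ₗ[ℝ] ℝ} {P : Dual ℝ V} {R ε : ℝ} (hε : 1 ≤ R ^ 2 * ε)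
    {x : V} (h0 : 0 ≤ P x) (h : ε * P x ^ 2 ≤ B x x) : InC B P R x := by
  refine ⟨h0, ?_⟩
  have h1 : R ^ 2 * (ε * P x ^ 2) ≤ R ^ 2 * B x x := mul_le_mul_of_nonneg_left h (sq_nonneg R)
  have h2 : 1 * P x ^ 2 ≤ R ^ 2 * ε * P x ^ 2 := mul_le_mul_of_nonneg_right hε (sq_nonneg _)
  linarith

/-- the form `B = ∑ c N N + ε P²` of the certificate -/
theorem inC_of_cert2 {N : ι → Dual ℝ V} {B : V →ₗ[ℝ] V →ₗ[ℝ] ℝ} {P : Dual ℝ V} {R ε : ℝ}
    {κ : Type*} [Fintype κ] (c : κ → ℝ) (u v : κ → ι) (hc : ∀ k, 0 ≤ c k)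
    (hε : 1 ≤ R ^ 2 * ε) {x : V} (hx : ∀ w, 0 ≤ N w x) (h0 : 0 ≤ P x)
    (h : B x x = ∑ k, c k * (N (u k) x * N (v k) x) + ε * P x ^ 2) : InC B P R x := by
  apply inC_of_ge hε h0
  have h3 : 0 ≤ ∑ k, c k * (N (u k) x * N (v k) x) :=
    Finset.sum_nonneg fun k _ => mul_nonneg (hc k) (mul_nonneg (hx _) (hx _))
  linarith

variable {G : Type*} [Group G] {m : ℕ} {D : WD V G ι} {H : Subgroup G}

/-- the wall condition for representatives of the orbits of walls -/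
theorem inC_conj (D : WD V G ι) {R : ℝ} {u : G} {s s' : ι} {v : G} (hu : u ∈ D.E0)
    (hv : v ∈ D.E0) (h : u * D.K s = D.K s' * v)
    (hs : ∀ x, D.N s x = 0 → (∀ w, 0 ≤ D.N w x) → InC D.B D.P R x) :
    ∀ x, D.N s' x = 0 → (∀ w, 0 ≤ D.N w x) → InC D.B D.P R x := by
  intro x hx0 hx
  have e : D.ρ u (D.ρ u⁻¹ x) = x := D.ρ_inv u x
  have h1 : D.N s (D.ρ u⁻¹ x) = 0 := by
    rw [← D.N_ρ hu hv h, e, hx0]
  have h2 : ∀ w, 0 ≤ D.N w (D.ρ u⁻¹ x) := by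
    intro w
    obtain ⟨w', v', hv', he⟩ := D.eqv u hu w
    rw [← D.N_ρ hu hv' he, e]
    exact hx w'
  obtain ⟨h3, h4⟩ := hs _ h1 h2
  refine ⟨?_, ?_⟩
  · rwa [← e, D.P_ρ hu]
  · rwa [← e, D.P_ρ hu, D.isom]

/-- the points of the cone on the hyperboloid are bounded -/
theorem HypAct.bounded_iff (A : HypAct D H m) {R : ℝ} (hR : 0 ≤ R) {x : V}
    (hx : A.Φ x ∈ Hyp m) (h : InC D.B D.P R x) : (A.Φ x) 0 ≤ R := by
  have h1 : D.B x x = 1 := by
    rw [A.isom]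
    exact hx.1
  have h2 : D.P x = (A.Φ x) 0 := by
    show D.B x D.x0 = _
    rw [A.isom, A.base, Pool.Agent.Helper65.PK.mink_e0_right]
  obtain ⟨h3, h4⟩ := h
  rw [h1, mul_one, h2] at h4
  exact abs_le_of_sq_le_sq' h4 hR |>.2

/-- cocompactness -/
theorem HypAct.cocompact (A : HypAct D H m) {R : ℝ} (hR : 0 ≤ R)
    (hbd : ∀ x : V, (∀ w, 0 ≤ D.N w x) → InC D.B D.P R x) {x : V} (hx : A.Φ x ∈ Hyp m) :
    ∃ g ∈ H, (A.Φ (D.ρ g x)) 0 ≤ R := by
  obtain ⟨g, hg, h⟩ := A.cover hx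
  exact ⟨g⁻¹, H.inv_mem hg, A.bounded_iff hR (A.hyp _ (H.inv_mem hg) _ hx) (hbd _ h)⟩

end Pool.Agent.Helper65.L1
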