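import Pool.Agent.Helper65.L1.Sweep

/-!
# L1, part 2: the core theorem

`E` acts on `V` preserving `B`; `E0` fixes `x0`; `K w`, `w ∈ ι`, are the side pairings.  If all
walls are facets and each ridge has a cycle (`Cyc`), then every element of the group generated by
`E0` and the `K w` which maps the generic interior point `z` back into the cone lies in `E0`.
-/

open Filter Topology Module

namespace Pool.Agent.Helper65.L1

/-- the data -/
structure WD (V E ι : Type*) [AddCommGroup V] [Module ℝ V] [Group E] where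
  /-- the form -/
  B : V →ₗ[ℝ] V →ₗ[ℝ] ℝ
  /-- the action -/
  ρ : E →* (V →ₗ[ℝ] V)
  /-- the base point -/
  x0 : V
  /-- the stabiliser -/
  E0 : Subgroup E
  /-- the side pairings -/
  K : ι → E
  isom : ∀ g v w, B (ρ g v) (ρ g w) = B v w
  fix : ∀ u ∈ E0, ρ u x0 = x0
  eqv : ∀ u ∈ E0, ∀ w, ∃ w', ∃ v ∈ E0, u * K w = K w' * v
  sym : ∀ w, ∃ w', ∃ v ∈ E0, (K w)⁻¹ = K w' * v

namespace WD

variable {V E ι : Type*} [AddCommGroup V] [Module ℝ V] [Group E] (D : WD V E ι)

/-- the normal vectors of the walls -/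
def n (w : ι) : V := D.ρ (D.K w) D.x0 - D.x0

/-- the wall functionals -/
def N (w : ι) : Dual ℝ V := D.B.flip (D.n w)

/-- the positivity functional -/
def P : Dual ℝ V := D.B.flip D.x0

/-- the level of a group element -/
def lev (z : V) (g : E) : ℝ := D.B z (D.ρ g D.x0)

theorem ρ_mul (g h : E) (x : V) : D.ρ (g * h) x = D.ρ g (D.ρ h x) := by
  rw [map_mul]
  rfl

theorem ρ_inv (g : E) (x : V) : D.ρ g (D.ρ g⁻¹ x) = x := by
  rw [← D.ρ_mul, mul_inv_cancel, map_one]
  rfl

theorem ρ_inv' (g : E) (x : V) : D.ρ g⁻¹ (D.ρ g x) = x := by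
  rw [← D.ρ_mul, inv_mul_cancel, map_one]
  rfl

theorem lev_mul (z : V) (g h : E) : D.lev z (g * h) = D.B (D.ρ g⁻¹ z) (D.ρ h D.x0) := by
  unfold lev
  rw [← D.isom g (D.ρ g⁻¹ z), ρ_inv, ρ_mul]

theorem lev_eq (z : V) (g : E) : D.lev z g = D.P (D.ρ g⁻¹ z) := by
  have h := D.lev_mul z g 1
  rw [mul_one, map_one] at h
  exact h

theorem lev_mul_of_cone (z : V) (g h : E) :
    D.lev z (g * h) = D.lev z g + D.B (D.ρ g⁻¹ z) (D.ρ h D.x0 - D.x0) := by
  rw [lev_mul, lev_eq, map_sub]
  show _ = D.B (D.ρ g⁻¹ z) D.x0 + _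
  ring

theorem lev_mul_K (z : V) (g : E) (w : ι) :
    D.lev z (g * D.K w) = D.lev z g + D.N w (D.ρ g⁻¹ z) := by
  rw [lev_mul_of_cone]
  rfl

theorem lev_mul_E0 (z : V) (g : E) {v : E} (hv : v ∈ D.E0) : D.lev z (g * v) = D.lev z g := by
  unfold lev
  rw [ρ_mul, D.fix v hv]

/-- one step in the graph of cosets -/
def Edge (a b : E) : Prop := (∃ v ∈ D.E0, b = a * v) ∨ ∃ w, b = a * D.K w

theorem Edge.mul {D : WD V E ι} {a b : E} (h : D.Edge a b) (g : E) : D.Edge (g * a) (g * b) := by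
  rcases h with ⟨v, hv, rfl⟩ | ⟨w, rfl⟩
  · exact Or.inl ⟨v, hv, (mul_assoc _ _ _).symm⟩
  · exact Or.inr ⟨w, (mul_assoc _ _ _).symm⟩

/-- `a x0` lies in the cone with apex `x0` spanned by the two normals -/
def InCone (s t : ι) (a : E) : Prop :=
  ∃ α β : ℝ, 0 ≤ α ∧ 0 ≤ β ∧ 0 < α + β ∧ D.ρ a D.x0 - D.x0 = α • D.n s + β • D.n t

/-- the ridge `s`, `t` has a cycle -/
def Cyc (s t : ι) : Prop :=
  ∃ v ∈ D.E0, Relation.ReflTransGen (fun a b => D.Edge a b ∧ D.InCone s t a ∧ D.InCone s t b)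
    (D.K s) (D.K t * v)

/-- the hypotheses on the base point `z` relative to the subgroup `H` -/
structure Base (H : Subgroup E) (z : V) : Prop where
  K_mem : ∀ w, D.K w ∈ H
  E0_le : D.E0 ≤ H
  int : ∀ w, 0 < D.N w z
  pos : ∀ g ∈ H, 0 < D.P (D.ρ g z)
  gen : ∀ a ∈ H, ∀ b ∈ H, D.lev z a = D.lev z b → D.ρ a D.x0 = D.ρ b D.x0
  fin : ∀ C : ℝ, (D.lev z '' H ∩ Set.Iic C).Finite

variable {D} {H : Subgroup E} {z : V}

/-- `g` can descend to `E0` -/
inductive Good (D : WD V E ι) (z : V) : E → Prop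
  | base (g : E) (h : g ∈ D.E0) : Good D z g
  | step (g : E) (w : ι) (h : D.lev z (g * D.K w) < D.lev z g) (h' : Good D z (g * D.K w)) :
      Good D z g

theorem Good.mul_E0 {g : E} (hg : D.Good z g) : ∀ v ∈ D.E0, D.Good z (g * v) := by
  induction hg with
  | base g h => exact fun v hv => Good.base _ (D.E0.mul_mem h hv)
  | step g w h h' ih =>
    intro v hv
    obtain ⟨w', v', hv', he⟩ := D.eqv v⁻¹ (D.E0.inv_mem hv) w
    have h1 : g * v * D.K w' = g * D.K w * v'⁻¹ := by
      rw [mul_assoc g v, mul_assoc g (D.K w)]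
      congr 1
      rw [← mul_inv_eq_iff_eq_mul.mpr he.symm.symm]
      group
    refine Good.step _ w' ?_ ?_
    · rw [h1, D.lev_mul_E0 z _ (D.E0.inv_mem hv'), D.lev_mul_E0 z _ hv]
      exact h
    · rw [h1]
      exact ih _ (D.E0.inv_mem hv')

/-- well-founded induction on the level -/
theorem Base.induction (hB : D.Base H z) {p : E → Prop}
    (h : ∀ g ∈ H, (∀ g' ∈ H, D.lev z g' < D.lev z g → p g') → p g) : ∀ g ∈ H, p g := by
  have key : ∀ k : ℕ, ∀ g ∈ H, (D.lev z '' H ∩ Set.Iic (D.lev z g)).ncard ≤ k → p g := by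
    intro k
    induction k with
    | zero =>
      intro g hg hk
      exfalso
      have h1 := (Set.ncard_eq_zero (hB.fin (D.lev z g))).mp (Nat.le_zero.mp hk)
      have h2 : D.lev z g ∈ D.lev z '' H ∩ Set.Iic (D.lev z g) :=
        ⟨⟨g, hg, rfl⟩, Set.mem_Iic.mpr le_rfl⟩
      rw [h1] at h2
      exact h2
    | succ k ih =>
      intro g hg hk
      apply h g hg
      intro g' hg' hlt
      apply ih g' hg'
      have h1 : D.lev z '' H ∩ Set.Iic (D.lev z g') ⊂ D.lev z '' H ∩ Set.Iic (D.lev z g) := by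
        rw [Set.ssubset_iff_of_subset]
        · exact ⟨D.lev z g, ⟨⟨g, hg, rfl⟩, Set.mem_Iic.mpr le_rfl⟩, fun h2 => not_le.mpr hlt h2.2⟩
        · exact Set.inter_subset_inter_right _ (Set.Iic_subset_Iic.mpr hlt.le)
      have h2 := Set.ncard_lt_ncard h1 (hB.fin _)
      omega
  exact fun g hg => key _ g hg le_rfl

/-- the walls that `y` violates are connected below the level -/
theorem Base.connect [Finite ι] (hB : D.Base H z) (ha : ∀ w, IsFacet D.N D.P w)
    (hb : ∀ s t, s ≠ t → IsRidge D.N D.P s t → D.Cyc s t) {g : E} (hg : g ∈ H) {s t : ι}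
    (hs : D.lev z (g * D.K s) < D.lev z g) (ht : D.lev z (g * D.K t) < D.lev z g) :
    Relation.ReflTransGen (fun a b => D.Edge a b ∧ D.lev z a < D.lev z g ∧ D.lev z b < D.lev z g)
      (g * D.K s) (g * D.K t) := by
  have hy : 0 < D.P (D.ρ g⁻¹ z) := hB.pos _ (H.inv_mem hg)
  have hs' : D.N s (D.ρ g⁻¹ z) < 0 := by
    rw [lev_mul_K] at hs
    linarith
  have ht' : D.N t (D.ρ g⁻¹ z) < 0 := by
    rw [lev_mul_K] at ht
    linarith
  have h1 := sweep ha hy hs' ht'
  clear hs ht hs'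
  induction h1 with
  | refl => exact Relation.ReflTransGen.refl
  | @tail b c _ hbc ih =>
    obtain ⟨hb', hc', hbc', hr⟩ := hbc
    refine (ih hb').trans ?_
    obtain ⟨v, hv, hcyc⟩ := hb b c hbc' hr
    have hcone : ∀ a, D.InCone b c a → D.lev z (g * a) < D.lev z g := by
      rintro a ⟨α, β, hα, hβ, hαβ, h⟩
      rw [lev_mul_of_cone, h, map_add, map_smul, map_smul]
      have e1 : D.B (D.ρ g⁻¹ z) (D.n b) = D.N b (D.ρ g⁻¹ z) := rfl
      have e2 : D.B (D.ρ g⁻¹ z) (D.n c) = D.N c (D.ρ g⁻¹ z) := rfl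
      rw [e1, e2, smul_eq_mul, smul_eq_mul]
      rcases hα.eq_or_lt with h0 | h0
      · have : 0 < β := by linarith
        have h2 := mul_neg_of_pos_of_neg this hc'
        rw [← h0, zero_mul]
        linarith
      · have h2 := mul_neg_of_pos_of_neg h0 hb'
        have h3 := mul_nonpos_of_nonneg_of_nonpos hβ hc'.le
        linarith
    have h2 : Relation.ReflTransGen
        (fun a b => D.Edge a b ∧ D.lev z a < D.lev z g ∧ D.lev z b < D.lev z g)
        (g * D.K b) (g * (D.K c * v)) := by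
      refine hcyc.lift (fun a => g * a) ?_
      rintro a a' ⟨he, h3, h4⟩
      exact ⟨he.mul g, hcone a h3, hcone a' h4⟩
    have hlt : D.lev z (g * D.K c) < D.lev z g := by
      rw [lev_mul_K]
      linarith
    refine h2.tail ⟨Or.inl ⟨v⁻¹, D.E0.inv_mem hv, ?_⟩, ?_, hlt⟩
    · group
    · rw [← mul_assoc, D.lev_mul_E0 z _ hv]
      exact hlt

theorem Base.good_desc [Finite ι] (hB : D.Base H z) (ha : ∀ w, IsFacet D.N D.P w)
    (hb : ∀ s t, s ≠ t → IsRidge D.N D.P s t → D.Cyc s t) :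
    ∀ g ∈ H, D.Good z g → ∀ s, D.lev z (g * D.K s) < D.lev z g → D.Good z (g * D.K s) := by
  apply hB.induction (p := fun g => D.Good z g → ∀ s, D.lev z (g * D.K s) < D.lev z g →
    D.Good z (g * D.K s))
  intro g hg ih hgood s hs
  -- edges below the level of `g` preserve goodness
  have hedge : ∀ a b, a ∈ H → D.Edge a b → D.lev z a < D.lev z g → D.lev z b < D.lev z g →
      D.Good z a → D.Good z b := by
    intro a b haH he hag hbg hga
    rcases he with ⟨v, hv, rfl⟩ | ⟨w, rfl⟩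
    · exact hga.mul_E0 v hv
    · rcases lt_trichotomy (D.lev z (a * D.K w)) (D.lev z a) with h | h | h
      · exact ih a haH hag hga w h
      · exfalso
        have h1 := hB.gen _ (H.mul_mem haH (hB.K_mem w)) _ haH h
        rw [ρ_mul] at h1
        have h2 : D.ρ (D.K w) D.x0 = D.x0 := by
          rw [← D.ρ_inv' a (D.ρ (D.K w) D.x0), h1, D.ρ_inv' a]
        have h3 := hB.int w
        have h4 : D.N w z = 0 := by
          show D.B z (D.n w) = 0
          unfold n
          rw [h2, sub_self, map_zero]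
        linarith
      · obtain ⟨w', v, hv, he⟩ := D.sym w
        have h1 : a * D.K w * D.K w' = a * v⁻¹ := by
          rw [mul_assoc]
          congr 1
          rw [← mul_inv_eq_iff_eq_mul.mpr he]
          group
        refine Good.step _ w' ?_ ?_
        · rw [h1, D.lev_mul_E0 z _ (D.E0.inv_mem hv)]
          exact h
        · rw [h1]
          exact hga.mul_E0 _ (D.E0.inv_mem hv)
  cases hgood with
  | base _ h =>
    exfalso
    obtain ⟨w', v, hv, he⟩ := D.eqv g h s
    rw [he, D.lev_mul_E0 z _ hv] at hs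
    have h1 := D.lev_mul_K z 1 w'
    rw [one_mul, inv_one, map_one] at h1
    have h2 : D.lev z g = D.lev z 1 := by
      have := D.lev_mul_E0 z 1 h
      rwa [one_mul] at this
    have h3 := hB.int w'
    rw [h1, h2] at hs
    have h4 : D.N w' ((1 : V →ₗ[ℝ] V) z) = D.N w' z := rfl
    rw [h4] at hs
    linarith
  | step _ w h h' =>
    have hpath := hB.connect ha hb hg h hs
    have key : ∀ b, Relation.ReflTransGen (fun a b => D.Edge a b ∧ D.lev z a < D.lev z g ∧
        D.lev z b < D.lev z g) (g * D.K w) b → b ∈ H ∧ D.Good z b := by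
      intro b hb'
      induction hb' with
      | refl => exact ⟨H.mul_mem hg (hB.K_mem w), h'⟩
      | @tail b c _ hbc ih' =>
        obtain ⟨hbH, hbG⟩ := ih'
        refine ⟨?_, hedge b c hbH hbc.1 hbc.2.1 hbc.2.2 hbG⟩
        rcases hbc.1 with ⟨v, hv, rfl⟩ | ⟨w', rfl⟩
        · exact H.mul_mem hbH (hB.E0_le hv)
        · exact H.mul_mem hbH (hB.K_mem w')
    exact (key _ hpath).2

/-- every element of the group generated by the side pairings and `E0` is good -/
theorem Base.good [Finite ι] (hB : D.Base H z) (ha : ∀ w, IsFacet D.N D.P w)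
    (hb : ∀ s t, s ≠ t → IsRidge D.N D.P s t → D.Cyc s t) {g : E}
    (hg : g ∈ Subgroup.closure (Set.range D.K ∪ (D.E0 : Set E))) : D.Good z g := by
  have hle : Subgroup.closure (Set.range D.K ∪ (D.E0 : Set E)) ≤ H := by
    rw [Subgroup.closure_le]
    rintro x (⟨w, rfl⟩ | hx)
    · exact hB.K_mem w
    · exact hB.E0_le hx
  have hmulK : ∀ x ∈ H, D.Good z x → ∀ w, D.Good z (x * D.K w) := by
    intro x hx hgx w
    rcases lt_trichotomy (D.lev z (x * D.K w)) (D.lev z x) with h | h | h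
    · exact hB.good_desc ha hb x hx hgx w h
    · exfalso
      have h1 := hB.gen _ (H.mul_mem hx (hB.K_mem w)) _ hx h
      rw [ρ_mul] at h1
      have h2 : D.ρ (D.K w) D.x0 = D.x0 := by
        rw [← D.ρ_inv' x (D.ρ (D.K w) D.x0), h1, D.ρ_inv' x]
      have h3 := hB.int w
      have h4 : D.N w z = 0 := by
        show D.B z (D.n w) = 0
        unfold n
        rw [h2, sub_self, map_zero]
      linarith
    · obtain ⟨w', v, hv, he⟩ := D.sym w
      have h1 : x * D.K w * D.K w' = x * v⁻¹ := by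
        rw [mul_assoc]
        congr 1
        rw [← mul_inv_eq_iff_eq_mul.mpr he]
        group
      refine Good.step _ w' ?_ ?_
      · rw [h1, D.lev_mul_E0 z _ (D.E0.inv_mem hv)]
        exact h
      · rw [h1]
        exact hgx.mul_E0 _ (D.E0.inv_mem hv)
  induction hg using Subgroup.closure_induction_right with
  | one => exact Good.base _ D.E0.one_mem
  | mul_right x hx y hy ih =>
    rcases hy with ⟨w, rfl⟩ | hy
    · exact hmulK x (hle hx) ih w
    · exact ih.mul_E0 y hy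
  | mul_inv_cancel x hx y hy ih =>
    rcases hy with ⟨w, rfl⟩ | hy
    · obtain ⟨w', v, hv, he⟩ := D.sym w
      rw [he, ← mul_assoc]
      exact (hmulK x (hle hx) ih w').mul_E0 v hv
    · exact ih.mul_E0 _ (D.E0.inv_mem hy)

/-- the core theorem -/
theorem Base.core [Finite ι] (hB : D.Base H z) (ha : ∀ w, IsFacet D.N D.P w)
    (hb : ∀ s t, s ≠ t → IsRidge D.N D.P s t → D.Cyc s t) {g : E}
    (hg : g ∈ Subgroup.closure (Set.range D.K ∪ (D.E0 : Set E)))
    (hgz : ∀ w, 0 ≤ D.N w (D.ρ g⁻¹ z)) : g ∈ D.E0 := by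
  cases hB.good ha hb hg with
  | base _ h => exact h
  | step _ w h _ =>
    exfalso
    rw [lev_mul_K] at h
    linarith [hgz w]

end WD

end Pool.Agent.Helper65.L1
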