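import Pool.Agent.Helper65.L1.Core

/-!
# L1, part 3: extension of homomorphisms

`D : WD V G ι` for the group `G`; a homomorphism `φ0 : E0 →* F` and elements `f w` of `F` with the
same relations as `E0` and the `K w` extend to a homomorphism of the group generated by `E0` and
the `K w`.
-/

open Filter Topology Module

namespace Pool.Agent.Helper65.L1

namespace WD

variable {V G F ι : Type*} [AddCommGroup V] [Module ℝ V] [Group G] [Group F] (D : WD V G ι)

/-- the group generated by `E0` and the side pairings -/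
def Gam : Subgroup G := Subgroup.closure (Set.range D.K ∪ (D.E0 : Set G))

theorem K_mem (w : ι) : D.K w ∈ D.Gam := Subgroup.subset_closure (Or.inl ⟨w, rfl⟩)

theorem E0_le : D.E0 ≤ D.Gam := fun _ hx => Subgroup.subset_closure (Or.inr hx)

/-- labels in `F` -/
structure Lab (D : WD V G ι) (F : Type*) [Group F] where
  /-- the homomorphism on the stabiliser -/
  φ0 : D.E0 →* F
  /-- the labels of the side pairings -/
  f : ι → F
  eqv : ∀ u : D.E0, ∀ w, ∃ w', ∃ v : D.E0, (u : G) * D.K w = D.K w' * v ∧ φ0 u * f w = f w' * φ0 v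
  sym : ∀ w, ∃ w', ∃ v : D.E0, (D.K w)⁻¹ = D.K w' * v ∧ (f w)⁻¹ = f w' * φ0 v

variable {D}

/-- the data over `G × F` -/
def Lab.ext (L : D.Lab F) : WD V (G × F) ι where
  B := D.B
  ρ := D.ρ.comp (MonoidHom.fst G F)
  x0 := D.x0
  E0 := (D.E0.subtype.prod L.φ0).range
  K := fun w => (D.K w, L.f w)
  isom := fun g v w => D.isom g.1 v w
  fix := by
    rintro _ ⟨u, rfl⟩
    exact D.fix u.1 u.2
  eqv := by
    rintro _ ⟨u, rfl⟩ w
    obtain ⟨w', v, h1, h2⟩ := L.eqv u w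
    exact ⟨w', (v, L.φ0 v), ⟨v, rfl⟩, Prod.ext h1 h2⟩
  sym := by
    intro w
    obtain ⟨w', v, h1, h2⟩ := L.sym w
    exact ⟨w', (v, L.φ0 v), ⟨v, rfl⟩, Prod.ext h1 h2⟩

theorem Lab.mem_E0 (L : D.Lab F) (u : D.E0) : ((u : G), L.φ0 u) ∈ L.ext.E0 := ⟨u, rfl⟩

theorem Lab.ext_base (L : D.Lab F) {H : Subgroup G} {z : V} (hB : D.Base H z) :
    L.ext.Base (H.comap (MonoidHom.fst G F)) z where
  K_mem := fun w => hB.K_mem w
  E0_le := by
    rintro _ ⟨u, rfl⟩
    exact hB.E0_le u.2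
  int := hB.int
  pos := fun g hg => hB.pos g.1 hg
  gen := fun a ha b hb h => hB.gen a.1 ha b.1 hb h
  fin := by
    intro C
    refine (hB.fin C).subset ?_
    rintro _ ⟨⟨g, hg, rfl⟩, h⟩
    exact ⟨⟨g.1, hg, rfl⟩, h⟩

/-- extension of homomorphisms -/
theorem Lab.exists_hom [Finite ι] (L : D.Lab F) {H : Subgroup G} {z : V} (hB : D.Base H z)
    (ha : ∀ w, IsFacet D.N D.P w)
    (hb : ∀ s t, s ≠ t → IsRidge D.N D.P s t → L.ext.Cyc s t) :
    ∃ φ : D.Gam →* F, (∀ w, φ ⟨D.K w, D.K_mem w⟩ = L.f w) ∧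
      ∀ u : D.E0, φ ⟨u, D.E0_le u.2⟩ = L.φ0 u := by
  set Γ' : Subgroup (G × F) := L.ext.Gam with hΓ'
  have hle : Γ' ≤ D.Gam.comap (MonoidHom.fst G F) := by
    rw [hΓ', Gam, Subgroup.closure_le]
    rintro x (⟨w, rfl⟩ | ⟨u, rfl⟩)
    · exact D.K_mem w
    · exact D.E0_le u.2
  let π : Γ' →* D.Gam := ((MonoidHom.fst G F).comp Γ'.subtype).codRestrict D.Gam
    (fun x => hle x.2)
  have hπ : ∀ x : Γ', ((π x : D.Gam) : G) = (x : G × F).1 := fun x => rfl
  have hinj : Function.Injective π := by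
    rw [injective_iff_map_eq_one]
    intro x hx
    have h1 : (x : G × F).1 = 1 := by
      rw [← hπ, hx]
      rfl
    have h2 : (x : G × F) ∈ L.ext.E0 := by
      apply (L.ext_base hB).core ha hb x.2
      intro w
      have h3 : L.ext.ρ (x : G × F)⁻¹ z = z := by
        show D.ρ ((x : G × F)⁻¹).1 z = z
        rw [Prod.fst_inv, h1, inv_one, map_one]
        rfl
      rw [h3]
      exact (hB.int w).le
    obtain ⟨u, hu⟩ := h2
    have h3 : (u : G) = (x : G × F).1 := congrArg Prod.fst hu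
    have h4 : L.φ0 u = (x : G × F).2 := congrArg Prod.snd hu
    have h5 : u = 1 := Subtype.ext (h3.trans h1)
    apply Subtype.ext
    apply Prod.ext
    · exact h1
    · rw [← h4, h5, map_one]
      rfl
  have hsurj : Function.Surjective π := by
    have h1 : D.Gam ≤ Γ'.map (MonoidHom.fst G F) := by
      rw [Gam, Subgroup.closure_le]
      rintro x (⟨w, rfl⟩ | hx)
      · exact ⟨(D.K w, L.f w), L.ext.K_mem w, rfl⟩
      · exact ⟨(x, L.φ0 ⟨x, hx⟩), L.ext.E0_le (L.mem_E0 ⟨x, hx⟩), rfl⟩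
    rintro ⟨g, hg⟩
    obtain ⟨y, hy, hyg⟩ := h1 hg
    exact ⟨⟨y, hy⟩, Subtype.ext hyg⟩
  let e : Γ' ≃* D.Gam := MulEquiv.ofBijective π ⟨hinj, hsurj⟩
  refine ⟨((MonoidHom.snd G F).comp Γ'.subtype).comp e.symm.toMonoidHom, ?_, ?_⟩
  · intro w
    have h1 : e.symm ⟨D.K w, D.K_mem w⟩ = ⟨(D.K w, L.f w), L.ext.K_mem w⟩ := by
      rw [MulEquiv.symm_apply_eq]
      rfl
    show ((e.symm ⟨D.K w, D.K_mem w⟩ : Γ') : G × F).2 = L.f w
    rw [h1]
  · intro u
    have h1 : e.symm ⟨u, D.E0_le u.2⟩ = ⟨((u : G), L.φ0 u), L.ext.E0_le (L.mem_E0 u)⟩ := by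
      rw [MulEquiv.symm_apply_eq]
      rfl
    show ((e.symm ⟨u, D.E0_le u.2⟩ : Γ') : G × F).2 = L.φ0 u
    rw [h1]

/-- covering by translates of the cone -/
theorem cover {H : Subgroup G} (hK : ∀ w, D.K w ∈ H) {x : V}
    (hfin : ∀ C : ℝ, (D.lev x '' H ∩ Set.Iic C).Finite) :
    ∃ g ∈ H, ∀ w, 0 ≤ D.N w (D.ρ g⁻¹ x) := by
  have h1 : (D.lev x '' H ∩ Set.Iic (D.lev x 1)).Nonempty :=
    ⟨D.lev x 1, ⟨1, H.one_mem, rfl⟩, Set.mem_Iic.mpr le_rfl⟩
  obtain ⟨c, ⟨⟨g, hg, rfl⟩, hc⟩, hmin⟩ := Set.exists_min_image _ id (hfin (D.lev x 1)) h1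
  refine ⟨g, hg, fun w => ?_⟩
  by_contra hcon
  push Not at hcon
  have h2 := D.lev_mul_K x g w
  have h3 : D.lev x (g * D.K w) < D.lev x g := by linarith
  have h4 := hmin (D.lev x (g * D.K w)) ⟨⟨_, H.mul_mem hg (hK w), rfl⟩,
    Set.mem_Iic.mpr (h3.le.trans (Set.mem_Iic.mp hc))⟩
  simp only [id] at h4
  linarith

/-! ### reduction to representatives -/

variable (D)

theorem ρ_n {u : G} {w w' : ι} {v : G} (hu : u ∈ D.E0) (hv : v ∈ D.E0)
    (h : u * D.K w = D.K w' * v) : D.ρ u (D.n w) = D.n w' := by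
  unfold n
  rw [map_sub, D.fix u hu, ← D.ρ_mul, h, D.ρ_mul, D.fix v hv]

theorem N_ρ {u : G} {w w' : ι} {v : G} (hu : u ∈ D.E0) (hv : v ∈ D.E0)
    (h : u * D.K w = D.K w' * v) (q : V) : D.N w' (D.ρ u q) = D.N w q := by
  show D.B (D.ρ u q) (D.n w') = D.B q (D.n w)
  rw [← D.ρ_n hu hv h, D.isom]

theorem P_ρ {u : G} (hu : u ∈ D.E0) (q : V) : D.P (D.ρ u q) = D.P q := by
  show D.B (D.ρ u q) D.x0 = D.B q D.x0
  conv_lhs => rw [← D.fix u hu]
  rw [D.isom]

/-- the wall `u w` -/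
theorem exists_inv {u : G} (hu : u ∈ D.E0) (w : ι) :
    ∃ w', ∃ v ∈ D.E0, u * D.K w' = D.K w * v := by
  obtain ⟨w', v', hv', he⟩ := D.eqv u⁻¹ (D.E0.inv_mem hu) w
  refine ⟨w', v'⁻¹, D.E0.inv_mem hv', ?_⟩
  rw [← mul_inv_eq_iff_eq_mul.mpr he]
  group

/-- facets for representatives give all facets -/
theorem facet_conj (hn : Function.Injective D.n) {u : G} {s s' : ι} {v : G} (hu : u ∈ D.E0)
    (hv : v ∈ D.E0) (h : u * D.K s = D.K s' * v) (hs : IsFacet D.N D.P s) :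
    IsFacet D.N D.P s' := by
  obtain ⟨q, hP, h0, h1⟩ := hs
  refine ⟨D.ρ u q, by rwa [D.P_ρ hu], by rwa [D.N_ρ hu hv h], ?_⟩
  intro w hw
  obtain ⟨w', v', hv', he⟩ := D.exists_inv hu w
  rw [D.N_ρ hu hv' he]
  apply h1
  rintro rfl
  apply hw
  apply hn
  rw [← D.ρ_n hu hv' he, D.ρ_n hu hv h]

/-- ridges for representatives -/
theorem ridge_conj (hn : Function.Injective D.n) {u : G} {s s' t t' : ι} {v v' : G}
    (hu : u ∈ D.E0) (hv : v ∈ D.E0) (hv' : v' ∈ D.E0) (h : u * D.K s = D.K s' * v)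
    (h' : u * D.K t = D.K t' * v') (hs : IsRidge D.N D.P s t) : IsRidge D.N D.P s' t' := by
  obtain ⟨q, hP, h0, h0', h1⟩ := hs
  refine ⟨D.ρ u q, by rwa [D.P_ρ hu], by rwa [D.N_ρ hu hv h], by rwa [D.N_ρ hu hv' h'], ?_⟩
  intro w hws hwt
  obtain ⟨w', v₂, hv₂, he⟩ := D.exists_inv hu w
  rw [D.N_ρ hu hv₂ he]
  apply h1
  · rintro rfl
    apply hws
    apply hn
    rw [← D.ρ_n hu hv₂ he, D.ρ_n hu hv h]
  · rintro rfl
    apply hwt
    apply hn
    rw [← D.ρ_n hu hv₂ he, D.ρ_n hu hv' h']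

theorem inCone_mul_E0 {s t : ι} {a v : G} (hv : v ∈ D.E0) (h : D.InCone s t a) :
    D.InCone s t (a * v) := by
  obtain ⟨α, β, h1, h2, h3, h4⟩ := h
  exact ⟨α, β, h1, h2, h3, by rw [D.ρ_mul, D.fix v hv, h4]⟩

theorem inCone_left (s t : ι) : D.InCone s t (D.K s) :=
  ⟨1, 0, zero_le_one, le_rfl, by norm_num, by rw [one_smul, zero_smul, add_zero]; rfl⟩

theorem inCone_right (s t : ι) : D.InCone s t (D.K t) :=
  ⟨0, 1, le_rfl, zero_le_one, by norm_num, by rw [one_smul, zero_smul, zero_add]; rfl⟩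

theorem inCone_swap {s t : ι} {a : G} (h : D.InCone s t a) : D.InCone t s a := by
  obtain ⟨α, β, h1, h2, h3, h4⟩ := h
  exact ⟨β, α, h2, h1, by linarith, by rw [h4, add_comm]⟩

theorem inCone_conj {u : G} {s s' t t' : ι} {v v' : G} (hu : u ∈ D.E0) (hv : v ∈ D.E0)
    (hv' : v' ∈ D.E0) (h : u * D.K s = D.K s' * v) (h' : u * D.K t = D.K t' * v') {a : G}
    (ha : D.InCone s t a) : D.InCone s' t' (u * a) := by
  obtain ⟨α, β, h1, h2, h3, h4⟩ := ha
  refine ⟨α, β, h1, h2, h3, ?_⟩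
  have h5 : D.ρ (u * a) D.x0 - D.x0 = D.ρ u (D.ρ a D.x0 - D.x0) := by
    rw [map_sub, D.fix u hu, D.ρ_mul]
  rw [h5, h4, map_add, map_smul, map_smul, D.ρ_n hu hv h, D.ρ_n hu hv' h']

/-- cycles for representatives -/
theorem cyc_conj {u : G} {s s' t t' : ι} {v v' : G} (hu : u ∈ D.E0) (hv : v ∈ D.E0)
    (hv' : v' ∈ D.E0) (h : u * D.K s = D.K s' * v) (h' : u * D.K t = D.K t' * v')
    (hs : D.Cyc s t) : D.Cyc s' t' := by
  obtain ⟨x, hx, hpath⟩ := hs
  refine ⟨v' * x, D.E0.mul_mem hv' hx, ?_⟩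
  have h1 : Relation.ReflTransGen
      (fun a b => D.Edge a b ∧ D.InCone s' t' a ∧ D.InCone s' t' b)
      (u * D.K s) (u * (D.K t * x)) := by
    refine hpath.lift (fun a => u * a) ?_
    rintro a b ⟨he, h3, h4⟩
    exact ⟨he.mul u, D.inCone_conj hu hv hv' h h' h3, D.inCone_conj hu hv hv' h h' h4⟩
  rw [← mul_assoc, h', mul_assoc, h] at h1
  refine Relation.ReflTransGen.head ⟨Or.inl ⟨v, hv, rfl⟩, D.inCone_left s' t',
    D.inCone_mul_E0 hv (D.inCone_left s' t')⟩ h1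

/-- reversing one edge -/
theorem edge_rev {s t : ι} {a b : G} (he : D.Edge a b) (ha : D.InCone s t a)
    (hb : D.InCone s t b) :
    Relation.ReflTransGen (fun a b => D.Edge a b ∧ D.InCone s t a ∧ D.InCone s t b) b a := by
  rcases he with ⟨v, hv, rfl⟩ | ⟨w, rfl⟩
  · exact Relation.ReflTransGen.single ⟨Or.inl ⟨v⁻¹, D.E0.inv_mem hv, by group⟩, hb, ha⟩
  · obtain ⟨w', v, hv, he⟩ := D.sym w
    have h1 : a * D.K w * D.K w' = a * v⁻¹ := by
      rw [mul_assoc]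
      congr 1
      rw [← mul_inv_eq_iff_eq_mul.mpr he]
      group
    have h2 : D.InCone s t (a * D.K w * D.K w') := by
      rw [h1]
      exact D.inCone_mul_E0 (D.E0.inv_mem hv) ha
    refine (Relation.ReflTransGen.single ⟨Or.inr ⟨w', rfl⟩, hb, h2⟩).tail
      ⟨Or.inl ⟨v, hv, ?_⟩, h2, ha⟩
    rw [h1]
    group

theorem cyc_symm {s t : ι} (h : D.Cyc s t) : D.Cyc t s := by
  obtain ⟨v, hv, hpath⟩ := h
  have key : ∀ b, Relation.ReflTransGen
      (fun a b => D.Edge a b ∧ D.InCone s t a ∧ D.InCone s t b) (D.K s) b →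
      Relation.ReflTransGen
        (fun a b => D.Edge a b ∧ D.InCone s t a ∧ D.InCone s t b) b (D.K s) := by
    intro b hb
    induction hb with
    | refl => exact Relation.ReflTransGen.refl
    | tail _ hbc ih => exact (D.edge_rev hbc.1 hbc.2.1 hbc.2.2).trans ih
  refine ⟨1, D.E0.one_mem, ?_⟩
  rw [mul_one]
  have h1 := key _ hpath
  have h2 := Relation.ReflTransGen.head (r := fun a b => D.Edge a b ∧ D.InCone s t a ∧
    D.InCone s t b) (a := D.K t) ⟨Or.inl ⟨v, hv, rfl⟩, D.inCone_right s t,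
    D.inCone_mul_E0 hv (D.inCone_right s t)⟩ h1
  refine Relation.ReflTransGen.mono ?_ _ _ h2
  rintro a b ⟨he, h3, h4⟩
  exact ⟨he, D.inCone_swap h3, D.inCone_swap h4⟩

theorem ridge_symm {s t : ι} (h : IsRidge D.N D.P s t) : IsRidge D.N D.P t s := by
  obtain ⟨q, hP, h0, h0', h1⟩ := h
  exact ⟨q, hP, h0', h0, fun w hs ht => h1 w ht hs⟩

/-- a cycle given by a list of side pairings -/
theorem cyc_of_list {s t : ι} (l : List ι) {v : G} (hv : v ∈ D.E0)
    (h : D.K s * (l.map D.K).prod = D.K t * v)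
    (hc : ∀ i, 1 ≤ i → i < l.length → D.InCone s t (D.K s * ((l.take i).map D.K).prod)) :
    D.Cyc s t := by
  refine ⟨v, hv, ?_⟩
  rw [← h]
  have hc' : ∀ i, i ≤ l.length → D.InCone s t (D.K s * ((l.take i).map D.K).prod) := by
    intro i hi
    rcases Nat.eq_zero_or_pos i with h0 | h0
    · rw [h0]
      simpa using D.inCone_left s t
    · rcases hi.eq_or_lt with h1 | h1
      · rw [h1, List.take_length, h]
        exact D.inCone_mul_E0 hv (D.inCone_right s t)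
      · exact hc i h0 h1
  have key : ∀ i, i ≤ l.length → Relation.ReflTransGen
      (fun a b => D.Edge a b ∧ D.InCone s t a ∧ D.InCone s t b)
      (D.K s) (D.K s * ((l.take i).map D.K).prod) := by
    intro i
    induction i with
    | zero =>
      intro _
      simpa using Relation.ReflTransGen.refl
    | succ i ih =>
      intro hi
      refine (ih (by omega)).tail ⟨Or.inr ⟨l[i], ?_⟩, hc' i (by omega), hc' (i + 1) hi⟩
      rw [mul_assoc]
      congr 1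
      rw [List.take_succ_eq_append_getElem (by omega), List.map_append, List.prod_append]
      simp
  have h1 := key l.length le_rfl
  rwa [List.take_length] at h1

/-- a Farkas certificate excludes a ridge -/
theorem not_ridge_of_farkas [Fintype ι] {s t : ι} (c : ι → ℝ) (hc : ∀ w, 0 ≤ c w)
    {a b κ : ℝ} (hκ : 0 ≤ κ)
    (h : ∑ w, c w • D.n w = a • D.n s + b • D.n t - κ • D.x0)
    (hpos : 0 < κ ∨ ∃ w, w ≠ s ∧ w ≠ t ∧ 0 < c w) : ¬ IsRidge D.N D.P s t := by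
  rintro ⟨q, hP, h0, h0', h1⟩
  have h2 : ∑ w, c w * D.N w q = a * D.N s q + b * D.N t q - κ * D.P q := by
    have h3 := congrArg (D.B q) h
    rw [map_sub, map_add, map_smul, map_smul, map_smul, map_sum] at h3
    simp only [map_smul, smul_eq_mul] at h3
    exact h3
  rw [h0, h0', mul_zero, mul_zero, add_zero, zero_sub] at h2
  have h4 : ∀ w, 0 ≤ c w * D.N w q := by
    intro w
    by_cases hs : w = s
    · rw [hs, h0, mul_zero]
    · by_cases ht : w = t
      · rw [ht, h0', mul_zero]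
      · exact mul_nonneg (hc w) (h1 w hs ht).le
  rcases hpos with h5 | ⟨w, hs, ht, hw⟩
  · have h6 := Finset.sum_nonneg (s := Finset.univ) fun w _ => h4 w
    have h7 := mul_pos h5 hP
    linarith
  · have h6 : 0 < ∑ w, c w * D.N w q :=
      Finset.sum_pos' (fun w _ => h4 w) ⟨w, Finset.mem_univ _, mul_pos hw (h1 w hs ht)⟩
    have h7 := mul_nonneg hκ hP.le
    linarith

/-- the ridge condition for representatives of the pairs is enough -/
theorem ridge_reduce (hn : Function.Injective D.n)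
    (hrep : ∀ s t, s ≠ t → ∃ s' t', (D.Cyc s' t' ∨ ¬ IsRidge D.N D.P s' t') ∧
      ∃ u ∈ D.E0, ∃ v ∈ D.E0, ∃ v' ∈ D.E0,
        (u * D.K s = D.K s' * v ∧ u * D.K t = D.K t' * v') ∨
        (u * D.K t = D.K s' * v ∧ u * D.K s = D.K t' * v')) :
    ∀ s t, s ≠ t → IsRidge D.N D.P s t → D.Cyc s t := by
  intro s t hst hr
  obtain ⟨s', t', h1, u, hu, v, hv, v', hv', h2⟩ := hrep s t hst
  have hinv : ∀ {a b : ι} {x : G}, x ∈ D.E0 → u * D.K a = D.K b * x →
      u⁻¹ * D.K b = D.K a * x⁻¹ := by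
    intro a b x _ h
    rw [← mul_inv_eq_iff_eq_mul.mpr h]
    group
  rcases h2 with ⟨h3, h4⟩ | ⟨h3, h4⟩
  · rcases h1 with h1 | h1
    · exact D.cyc_conj (D.E0.inv_mem hu) (D.E0.inv_mem hv) (D.E0.inv_mem hv') (hinv hv h3)
        (hinv hv' h4) h1
    · exact absurd (D.ridge_conj hn hu hv hv' h3 h4 hr) h1
  · rcases h1 with h1 | h1
    · exact D.cyc_symm (D.cyc_conj (D.E0.inv_mem hu) (D.E0.inv_mem hv) (D.E0.inv_mem hv')
        (hinv hv h3) (hinv hv' h4) h1)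
    · exact absurd (D.ridge_conj hn hu hv hv' h3 h4 (D.ridge_symm hr)) h1

end WD

end Pool.Agent.Helper65.L1
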