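import Pool.Agent.Helper65.L1.Ext
import Pool.Agent.Helper65.PK.Inv

/-!
# L1, part 4: existence of the generic base point, for actions on hyperbolic space
-/

open Filter Topology Module H77T2

namespace Pool.Agent.Helper65.L1

open Pool.Agent.Helper65.PK

variable {m : ℕ}

/-- the moment curve -/
noncomputable def mc (m : ℕ) (ε : ℝ) : Fin (m + 1) → ℝ := fun i => ε ^ (i : ℕ)

theorem mc_zero : mc m 0 = e0 m := by
  ext i
  refine Fin.cases ?_ (fun i => ?_) i
  · simp [mc, e0]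
  · simp [mc, e0]

theorem mink_mc (ε : ℝ) (v : Fin (m + 1) → ℝ) :
    mink m (mc m ε) v = v 0 - ∑ i : Fin m, ε ^ ((i : ℕ) + 1) * v i.succ := by
  simp [mink, mc]

theorem continuous_mc : Continuous (mc m) := by
  apply continuous_pi
  intro i
  exact continuous_pow _

theorem countable_bad {v : Fin (m + 1) → ℝ} (hv : v ≠ 0) :
    {ε : ℝ | mink m (mc m ε) v = 0}.Finite := by
  classical
  let p : Polynomial ℝ := Polynomial.C (v 0) -
    ∑ i : Fin m, Polynomial.C (v i.succ) * Polynomial.X ^ ((i : ℕ) + 1)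
  have hp : p ≠ 0 := by
    intro h
    apply hv
    have hcoeff : ∀ k, p.coeff k = 0 := by
      intro k
      rw [h, Polynomial.coeff_zero]
    have hc : ∀ k, p.coeff k = (if k = 0 then v 0 else 0) -
        ∑ i : Fin m, (if k = (i : ℕ) + 1 then v i.succ else 0) := by
      intro k
      simp only [p, Polynomial.coeff_sub, Polynomial.coeff_C, Polynomial.finsetSum_coeff,
        Polynomial.coeff_C_mul, Polynomial.coeff_X_pow, mul_ite, mul_one, mul_zero]
    ext i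
    refine Fin.cases ?_ (fun j => ?_) i
    · have h1 := hc 0
      rw [hcoeff, if_pos rfl, Finset.sum_eq_zero (fun i _ => if_neg (by omega))] at h1
      simp only [Pi.zero_apply]
      linarith
    · have h1 := hc ((j : ℕ) + 1)
      rw [hcoeff, if_neg (by omega)] at h1
      have h2 : ∑ i : Fin m, (if (j : ℕ) + 1 = (i : ℕ) + 1 then v i.succ else 0) = v j.succ := by
        rw [Finset.sum_eq_single j]
        · rw [if_pos rfl]
        · intro b _ hb
          rw [if_neg]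
          intro h
          apply hb
          apply Fin.ext
          omega
        · intro h
          exact absurd (Finset.mem_univ _) h
      rw [h2] at h1
      simp only [Pi.zero_apply]
      linarith
  refine (Polynomial.finite_setOfPred_isRoot hp).subset ?_
  intro ε hε
  have h1 : p.eval ε = mink m (mc m ε) v := by
    rw [mink_mc]
    simp only [p, Polynomial.eval_sub, Polynomial.eval_C, Polynomial.eval_finsetSum,
      Polynomial.eval_mul, Polynomial.eval_pow, Polynomial.eval_X]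
    congr 1
    apply Finset.sum_congr rfl
    intro i _
    ring
  show p.eval ε = 0
  rw [h1]
  exact hε

theorem exists_gen {κ : Type*} [Finite κ] (nn : κ → Fin (m + 1) → ℝ)
    (hn : ∀ i, 0 < mink m (e0 m) (nn i)) {S : Set (Fin (m + 1) → ℝ)} (hS : S.Countable)
    (hS0 : ∀ v ∈ S, v ≠ 0) :
    ∃ z ∈ Hyp m, (∀ v ∈ S, mink m z v ≠ 0) ∧ ∀ i, 0 < mink m z (nn i) := by
  have hc1 : ∀ v : Fin (m + 1) → ℝ, Continuous (fun ε => mink m (mc m ε) v) := by
    intro v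
    have h := continuous_mc (m := m)
    unfold mink
    fun_prop
  have hc2 : Continuous (fun ε => mink m (mc m ε) (mc m ε)) := by
    have h := continuous_mc (m := m)
    unfold mink
    fun_prop
  have h1 : ∀ᶠ ε in 𝓝 (0 : ℝ), ∀ i, 0 < mink m (mc m ε) (nn i) := by
    rw [eventually_all]
    intro i
    have h2 := (hc1 (nn i)).tendsto 0
    rw [mc_zero] at h2
    exact h2.eventually (lt_mem_nhds (hn i))
  have h2 : ∀ᶠ ε in 𝓝 (0 : ℝ), 0 < mink m (mc m ε) (mc m ε) := by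
    have h3 := hc2.tendsto 0
    rw [mc_zero, (e0_mem (m := m)).1] at h3
    exact h3.eventually (lt_mem_nhds one_pos)
  obtain ⟨U, hU, hUo, h0U⟩ := eventually_nhds_iff.mp (h1.and h2)
  have hbad : (⋃ v ∈ S, {ε : ℝ | mink m (mc m ε) v = 0}).Countable :=
    hS.biUnion fun v hv => (countable_bad (hS0 v hv)).countable
  obtain ⟨ε, hε, hεU⟩ := (hbad.dense_compl ℝ).exists_mem_open hUo ⟨0, h0U⟩
  obtain ⟨h3, h4⟩ := hU ε hεU
  have h5 : 0 < (Real.sqrt (mink m (mc m ε) (mc m ε)))⁻¹ := inv_pos.mpr (Real.sqrt_pos.mpr h4)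
  refine ⟨(Real.sqrt (mink m (mc m ε) (mc m ε)))⁻¹ • mc m ε, normalize_mem ?_ h4, ?_, ?_⟩
  · simp [mc]
  · intro v hv h6
    rw [mink_smul_left] at h6
    rcases mul_eq_zero.mp h6 with h7 | h7
    · exact h5.ne' h7
    · apply hε
      exact Set.mem_biUnion hv h7
  · intro i
    rw [mink_smul_left]
    exact mul_pos h5 (h3 i)

variable {V G ι : Type*} [AddCommGroup V] [Module ℝ V] [Group G]

/-- the action is an action on hyperbolic space -/
structure HypAct (D : WD V G ι) (H : Subgroup G) (m : ℕ) where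
  /-- the isometry -/
  Φ : V ≃ₗ[ℝ] (Fin (m + 1) → ℝ)
  isom : ∀ v w, D.B v w = mink m (Φ v) (Φ w)
  base : Φ D.x0 = e0 m
  hyp : ∀ g ∈ H, ∀ v, Φ v ∈ Hyp m → Φ (D.ρ g v) ∈ Hyp m
  K_mem : ∀ w, D.K w ∈ H
  E0_le : D.E0 ≤ H
  int : ∀ w, 0 < D.N w D.x0
  fin : ∀ C : ℝ, {v | ∃ g ∈ H, D.ρ g D.x0 = v ∧ D.B D.x0 v ≤ C}.Finite

variable {D : WD V G ι} {H : Subgroup G}

theorem HypAct.x0_mem (A : HypAct D H m) : A.Φ D.x0 ∈ Hyp m := by
  rw [A.base]
  exact e0_mem

theorem HypAct.lev_fin (A : HypAct D H m) {z : V} (hz : A.Φ z ∈ Hyp m) (C : ℝ) :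
    (D.lev z '' H ∩ Set.Iic C).Finite := by
  refine ((A.fin (2 * (D.B D.x0 z * C))).image (fun v => D.B z v)).subset ?_
  rintro _ ⟨⟨g, hg, rfl⟩, hC⟩
  refine ⟨D.ρ g D.x0, ⟨g, hg, rfl, ?_⟩, rfl⟩
  have h1 := tri A.x0_mem hz (A.hyp g hg _ A.x0_mem)
  rw [← A.isom, ← A.isom, ← A.isom] at h1
  have h2 : 0 < D.B D.x0 z := by
    rw [A.isom]
    linarith [one_le_mink A.x0_mem hz]
  have h3 : D.B z (D.ρ g D.x0) ≤ C := hC
  have h4 : D.B D.x0 z * D.B z (D.ρ g D.x0) ≤ D.B D.x0 z * C :=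
    mul_le_mul_of_nonneg_left h3 h2.le
  linarith

theorem HypAct.countable (A : HypAct D H m) : {v | ∃ g ∈ H, D.ρ g D.x0 = v}.Countable := by
  have h1 : {v | ∃ g ∈ H, D.ρ g D.x0 = v} ⊆
      ⋃ n : ℕ, {v | ∃ g ∈ H, D.ρ g D.x0 = v ∧ D.B D.x0 v ≤ n} := by
    rintro v ⟨g, hg, rfl⟩
    obtain ⟨n, hn⟩ := exists_nat_ge (D.B D.x0 (D.ρ g D.x0))
    exact Set.mem_iUnion.mpr ⟨n, g, hg, rfl, hn⟩
  exact (Set.countable_iUnion fun n : ℕ => (A.fin n).countable).mono h1

/-- there is a generic base point -/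
theorem HypAct.exists_base [Finite ι] (A : HypAct D H m) :
    ∃ z, A.Φ z ∈ Hyp m ∧ D.Base H z := by
  set O : Set V := {v | ∃ g ∈ H, D.ρ g D.x0 = v} with hO
  set S : Set (Fin (m + 1) → ℝ) :=
    (fun p : V × V => A.Φ (p.1 - p.2)) '' ((O ×ˢ O) ∩ {p | p.1 ≠ p.2}) with hS
  have hSc : S.Countable :=
    ((A.countable.prod A.countable).mono Set.inter_subset_left).image _
  have hS0 : ∀ v ∈ S, v ≠ 0 := by
    rintro _ ⟨⟨a, b⟩, ⟨_, hab⟩, rfl⟩ h
    apply hab
    have h1 : A.Φ (a - b) = 0 := h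
    rw [LinearEquiv.map_eq_zero_iff] at h1
    exact sub_eq_zero.mp h1
  obtain ⟨z', hz', hz1, hz2⟩ := exists_gen (fun w => A.Φ (D.n w)) (by
    intro w
    rw [← A.base, ← A.isom]
    exact A.int w) hSc hS0
  refine ⟨A.Φ.symm z', by rwa [LinearEquiv.apply_symm_apply], ?_⟩
  have hz : A.Φ (A.Φ.symm z') ∈ Hyp m := by rwa [LinearEquiv.apply_symm_apply]
  refine ⟨A.K_mem, A.E0_le, ?_, ?_, ?_, ?_⟩
  · intro w
    show 0 < D.B (A.Φ.symm z') (D.n w)
    rw [A.isom, LinearEquiv.apply_symm_apply]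
    exact hz2 w
  · intro g hg
    show 0 < D.B (D.ρ g (A.Φ.symm z')) D.x0
    rw [A.isom]
    linarith [one_le_mink (A.hyp g hg _ hz) A.x0_mem]
  · intro a ha b hb h
    by_contra hne
    apply hz1 (A.Φ (D.ρ a D.x0 - D.ρ b D.x0))
    · exact ⟨(D.ρ a D.x0, D.ρ b D.x0), ⟨⟨⟨a, ha, rfl⟩, ⟨b, hb, rfl⟩⟩, hne⟩, rfl⟩
    · have h1 : D.B (A.Φ.symm z') (D.ρ a D.x0) = D.B (A.Φ.symm z') (D.ρ b D.x0) := h
      rw [map_sub, mink_sub_right]
      rw [A.isom, A.isom, LinearEquiv.apply_symm_apply] at h1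
      linarith
  · exact A.lev_fin hz

/-- every point of hyperbolic space lies in a translate of the cone -/
theorem HypAct.cover (A : HypAct D H m) {x : V} (hx : A.Φ x ∈ Hyp m) :
    ∃ g ∈ H, ∀ w, 0 ≤ D.N w (D.ρ g⁻¹ x) :=
  WD.cover A.K_mem (A.lev_fin hx)

variable {F : Type*} [Group F]

/-- L1: extension of homomorphisms for actions on hyperbolic space -/
theorem HypAct.exists_hom [Finite ι] (A : HypAct D H m) (L : D.Lab F)
    (ha : ∀ w, IsFacet D.N D.P w)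
    (hb : ∀ s t, s ≠ t → IsRidge L.ext.N L.ext.P s t → L.ext.Cyc s t) :
    ∃ φ : D.Gam →* F, (∀ w, φ ⟨D.K w, D.K_mem w⟩ = L.f w) ∧
      ∀ u : D.E0, φ ⟨u, D.E0_le u.2⟩ = L.φ0 u := by
  obtain ⟨z, -, hB⟩ := A.exists_base
  exact L.exists_hom hB ha hb

end Pool.Agent.Helper65.L1
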