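import Mathlib

/-!
# L1, part 1: the visible facets of a convex cone are connected through ridges

`N w`, `w ∈ ι`, are the functionals that define the cone `D = {x | ∀ w, 0 ≤ N w x}`; each of them
is a facet (`IsFacet`).  `P` is a positivity functional.  If `y` with `0 < P y` violates `N s`
and `N t`, then `s` and `t` are joined by a chain of functionals which are all violated by `y`
and consecutive members of which meet in a ridge (`IsRidge`).
-/

open Filter Topology Module

namespace Pool.Agent.Helper65.L1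

variable {V : Type*} [AddCommGroup V] [Module ℝ V] {ι : Type*}

/-- `N s` defines a facet -/
def IsFacet (N : ι → Dual ℝ V) (P : Dual ℝ V) (s : ι) : Prop :=
  ∃ q, 0 < P q ∧ N s q = 0 ∧ ∀ w, w ≠ s → 0 < N w q

/-- the facets `N s` and `N t` meet in a ridge -/
def IsRidge (N : ι → Dual ℝ V) (P : Dual ℝ V) (s t : ι) : Prop :=
  ∃ q, 0 < P q ∧ N s q = 0 ∧ N t q = 0 ∧ ∀ w, w ≠ s → w ≠ t → 0 < N w q

theorem aff_pos {a : ℝ} (b : ℝ) (ha : 0 < a) : ∀ᶠ δ in 𝓝[>] (0 : ℝ), 0 < a + δ * b := by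
  have h : Tendsto (fun δ : ℝ => a + δ * b) (𝓝 0) (𝓝 (a + 0 * b)) := by
    apply Continuous.tendsto
    fun_prop
  rw [zero_mul, add_zero] at h
  exact (h.eventually (lt_mem_nhds ha)).filter_mono nhdsWithin_le_nhds

theorem aff_ne {a b : ℝ} (h : b ≠ 0) : ∀ᶠ δ in 𝓝[>] (0 : ℝ), a + δ * b ≠ 0 := by
  by_cases ha : a = 0
  · filter_upwards [self_mem_nhdsWithin] with δ hδ
    rw [ha, zero_add]
    exact mul_ne_zero (ne_of_gt hδ) h
  · have h1 : Tendsto (fun δ : ℝ => a + δ * b) (𝓝 0) (𝓝 (a + 0 * b)) := by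
      apply Continuous.tendsto
      fun_prop
    rw [zero_mul, add_zero] at h1
    exact (h1.eventually (isOpen_ne.mem_nhds ha)).filter_mono nhdsWithin_le_nhds

/-- perturbation: finitely many strict inequalities and finitely many hyperplanes -/
theorem exists_perturb {κ μ : Type*} [Finite κ] [Finite μ] (f : κ → Dual ℝ V)
    (Λ : μ → Dual ℝ V) {x : V} (hf : ∀ i, 0 < f i x) (hΛ : ∀ j, ∃ d, Λ j d ≠ 0) :
    ∃ x', (∀ i, 0 < f i x') ∧ ∀ j, Λ j x' ≠ 0 := by
  obtain ⟨d, hd⟩ := Module.Dual.exists_forall_ne_zero_of_forall_exists Λ hΛ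
  have h1 : ∀ᶠ δ in 𝓝[>] (0 : ℝ), ∀ i, 0 < f i (x + δ • d) := by
    rw [eventually_all]
    intro i
    filter_upwards [aff_pos (f i d) (hf i)] with δ hδ
    rwa [map_add, map_smul, smul_eq_mul]
  have h2 : ∀ᶠ δ in 𝓝[>] (0 : ℝ), ∀ j, Λ j (x + δ • d) ≠ 0 := by
    rw [eventually_all]
    intro j
    filter_upwards [aff_ne (a := Λ j x) (hd j)] with δ hδ
    rwa [map_add, map_smul, smul_eq_mul]
  obtain ⟨δ, h3, h4⟩ := (h1.and h2).exists
  exact ⟨x + δ • d, h3, h4⟩

/-- the normalised functional -/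
noncomputable def Ln (N : ι → Dual ℝ V) (y : V) (w : ι) : Dual ℝ V := (-(N w y))⁻¹ • N w

theorem Ln_apply (N : ι → Dual ℝ V) (y : V) (w : ι) (x : V) :
    Ln N y w x = (-(N w y))⁻¹ * N w x := rfl

theorem Ln_pos {N : ι → Dual ℝ V} {y : V} {w : ι} (hw : N w y < 0) {x : V} :
    0 < Ln N y w x ↔ 0 < N w x := by
  rw [Ln_apply]
  exact mul_pos_iff_of_pos_left (inv_pos.mpr (by linarith))

theorem Ln_zero {N : ι → Dual ℝ V} {y : V} {w : ι} {x : V} (h : N w x = 0) :
    Ln N y w x = 0 := by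
  rw [Ln_apply, h, mul_zero]

theorem Ln_self {N : ι → Dual ℝ V} {y : V} {w : ι} (hw : N w y < 0) :
    Ln N y w y = -1 := by
  rw [Ln_apply, inv_neg, neg_mul, inv_mul_cancel₀ hw.ne]

/-- three facet functionals are linearly independent -/
theorem indep {N : ι → Dual ℝ V} {P : Dual ℝ V} (ha : ∀ w, IsFacet N P w) {y : V} {a b c : ι}
    (hay : N a y < 0) (hby : N b y < 0) (hcy : N c y < 0) (hab : a ≠ b) (hbc : b ≠ c)
    (hac : a ≠ c) {p₁ p₂ p₃ : ℝ}
    (h : ∀ x, p₁ * Ln N y a x + p₂ * Ln N y b x + p₃ * Ln N y c x = 0) :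
    p₁ = 0 ∧ p₂ = 0 ∧ p₃ = 0 := by
  obtain ⟨qa, _, ha0, ha1⟩ := ha a
  obtain ⟨qb, _, hb0, hb1⟩ := ha b
  obtain ⟨qc, _, hc0, hc1⟩ := ha c
  have e1 := h qa
  have e2 := h qb
  have e3 := h qc
  rw [Ln_zero ha0] at e1
  rw [Ln_zero hb0] at e2
  rw [Ln_zero hc0] at e3
  have f1 := (Ln_pos hby).mpr (ha1 b hab.symm)
  have f2 := (Ln_pos hcy).mpr (ha1 c hac.symm)
  have f3 := (Ln_pos hay).mpr (hb1 a hab)
  have f4 := (Ln_pos hcy).mpr (hb1 c hbc.symm)
  have f5 := (Ln_pos hay).mpr (hc1 a hac)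
  have f6 := (Ln_pos hby).mpr (hc1 b hbc)
  set A1 := Ln N y b qa
  set A2 := Ln N y c qa
  set A3 := Ln N y a qb
  set A4 := Ln N y c qb
  set A5 := Ln N y a qc
  set A6 := Ln N y b qc
  have g1 : p₂ * A1 = - (p₃ * A2) := by linarith
  have g2 : p₁ * A3 = - (p₃ * A4) := by linarith
  have g3 : p₁ * A5 = - (p₂ * A6) := by linarith
  rcases lt_trichotomy p₁ 0 with h1 | h1 | h1
  · have h2 : 0 < p₃ := by
      have : p₁ * A3 < 0 := mul_neg_of_neg_of_pos h1 f3
      rw [g2] at this
      exact (mul_pos_iff_of_pos_right f4).mp (by linarith)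
    have h3 : 0 < p₂ := by
      have : p₁ * A5 < 0 := mul_neg_of_neg_of_pos h1 f5
      rw [g3] at this
      exact (mul_pos_iff_of_pos_right f6).mp (by linarith)
    have := mul_pos h3 f1
    have := mul_pos h2 f2
    linarith
  · rw [h1, zero_mul] at g2 g3
    have h2 : p₃ = 0 := by
      have : p₃ * A4 = 0 := by linarith
      exact (mul_eq_zero.mp this).resolve_right f4.ne'
    have h3 : p₂ = 0 := by
      have : p₂ * A6 = 0 := by linarith
      exact (mul_eq_zero.mp this).resolve_right f6.ne'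
    exact ⟨h1, h3, h2⟩
  · have h2 : p₃ < 0 := by
      have : 0 < p₁ * A3 := mul_pos h1 f3
      rw [g2] at this
      by_contra hcon
      push Not at hcon
      have := mul_nonneg hcon f4.le
      linarith
    have h3 : p₂ < 0 := by
      have : 0 < p₁ * A5 := mul_pos h1 f5
      rw [g3] at this
      by_contra hcon
      push Not at hcon
      have := mul_nonneg hcon f6.le
      linarith
    have := mul_neg_of_neg_of_pos h3 f1
    have := mul_neg_of_neg_of_pos h2 f2
    linarith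

/-- a point of the open cone which sees exactly `s` first from `y` -/
theorem exists_start [Finite ι] {N : ι → Dual ℝ V} {P : Dual ℝ V}
    (ha : ∀ w, IsFacet N P w) {y : V} {s : ι} (hs : N s y < 0) {μ : Type*}
    [Finite μ] (Λ : μ → Dual ℝ V) (hΛ : ∀ j, ∃ d, Λ j d ≠ 0) :
    ∃ x, 0 < P x ∧ (∀ w, 0 < N w x) ∧
      (∀ w, N w y < 0 → w ≠ s → Ln N y s x < Ln N y w x) ∧ ∀ j, Λ j x ≠ 0 := by
  obtain ⟨q, hP, hq0, hq1⟩ := ha s
  -- first step: leave the facet
  have h1 : ∀ᶠ δ in 𝓝[>] (0 : ℝ), ∀ w, 0 < N w (q + δ • (-y)) := by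
    rw [eventually_all]
    intro w
    by_cases hw : w = s
    · filter_upwards [self_mem_nhdsWithin] with δ hδ
      rw [hw, map_add, map_smul, hq0, zero_add, map_neg, smul_eq_mul]
      exact mul_pos hδ (by linarith)
    · filter_upwards [aff_pos (N w (-y)) (hq1 w hw)] with δ hδ
      rwa [map_add, map_smul, smul_eq_mul]
  have h2 : ∀ᶠ δ in 𝓝[>] (0 : ℝ), 0 < P (q + δ • (-y)) := by
    filter_upwards [aff_pos (P (-y)) hP] with δ hδ
    rwa [map_add, map_smul, smul_eq_mul]
  obtain ⟨δ, h3, h4⟩ := (h1.and h2).exists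
  have h5 : ∀ w, N w y < 0 → w ≠ s →
      Ln N y s (q + δ • (-y)) < Ln N y w (q + δ • (-y)) := by
    intro w hw hws
    rw [map_add, map_add, map_smul, map_smul, map_neg, map_neg, Ln_self hs, Ln_self hw,
      Ln_zero hq0]
    have := (Ln_pos hw).mpr (hq1 w hws)
    linarith
  -- second step: genericity
  let f : Option (ι ⊕ {w : ι // N w y < 0 ∧ w ≠ s}) → Dual ℝ V := fun o =>
    match o with
    | none => P
    | some (Sum.inl w) => N w
    | some (Sum.inr w) => Ln N y w.1 - Ln N y s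
  have hf : ∀ i, 0 < f i (q + δ • (-y)) := by
    rintro (_ | w | w)
    · exact h4
    · exact h3 w
    · show 0 < (Ln N y w.1 - Ln N y s) (q + δ • (-y))
      rw [LinearMap.sub_apply]
      linarith [h5 w.1 w.2.1 w.2.2]
  obtain ⟨x, hx, hxΛ⟩ := exists_perturb f Λ hf hΛ
  refine ⟨x, hx none, fun w => hx (some (Sum.inl w)), ?_, hxΛ⟩
  intro w hw hws
  have := hx (some (Sum.inr ⟨w, hw, hws⟩))
  change 0 < (Ln N y w - Ln N y s) x at this
  rw [LinearMap.sub_apply] at this
  linarith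

/-- the visible facets are connected through ridges -/
theorem sweep [Finite ι] {N : ι → Dual ℝ V} {P : Dual ℝ V} (ha : ∀ w, IsFacet N P w) {y : V}
    (hy : 0 < P y) {s t : ι} (hs : N s y < 0) (ht : N t y < 0) :
    Relation.ReflTransGen
      (fun a b => N a y < 0 ∧ N b y < 0 ∧ a ≠ b ∧ IsRidge N P a b) s t := by
  classical
  have : Fintype ι := Fintype.ofFinite ι
  obtain ⟨xt, hPt, hNt, hmt, -⟩ := exists_start ha ht (fun _ : Empty => P) (fun j => j.elim)
  -- the bad hyperplanes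
  have hΛ : ∀ T : ι × ι × ι, ∃ Λ : Dual ℝ V, (∃ d, Λ d ≠ 0) ∧
      (N T.1 y < 0 → N T.2.1 y < 0 → N T.2.2 y < 0 → T.1 ≠ T.2.1 → T.2.1 ≠ T.2.2 →
        T.1 ≠ T.2.2 → Λ xt = 0 ∧ ∀ x, Ln N y T.1 x = Ln N y T.2.1 x →
          Ln N y T.2.1 x = Ln N y T.2.2 x → Λ x = 0) := by
    rintro ⟨a, b, c⟩
    by_cases hcase : N a y < 0 ∧ N b y < 0 ∧ N c y < 0 ∧ a ≠ b ∧ b ≠ c ∧ a ≠ c
    swap
    · refine ⟨P, ⟨y, hy.ne'⟩, ?_⟩
      intro h1 h2 h3 h4 h5 h6
      exact absurd ⟨h1, h2, h3, h4, h5, h6⟩ hcase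
    obtain ⟨h1, h2, h3, h4, h5, h6⟩ := hcase
    by_cases hK : Ln N y a xt = Ln N y b xt ∧ Ln N y b xt = Ln N y c xt
    · refine ⟨Ln N y a - Ln N y b, ?_, ?_⟩
      · by_contra hcon
        push Not at hcon
        have h7 := indep ha h1 h2 h3 h4 h5 h6 (p₁ := 1) (p₂ := -1) (p₃ := 0) (by
          intro x
          have := hcon x
          rw [LinearMap.sub_apply] at this
          linarith)
        exact one_ne_zero h7.1
      · intro _ _ _ _ _ _
        refine ⟨by rw [LinearMap.sub_apply, hK.1, sub_self], ?_⟩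
        intro x hx _
        rw [LinearMap.sub_apply]
        simp only at hx
        rw [hx, sub_self]
    · refine ⟨(Ln N y b xt - Ln N y c xt) • (Ln N y a - Ln N y b) -
        (Ln N y a xt - Ln N y b xt) • (Ln N y b - Ln N y c), ?_, ?_⟩
      · by_contra hcon
        push Not at hcon
        have h7 := indep ha h1 h2 h3 h4 h5 h6 (p₁ := Ln N y b xt - Ln N y c xt)
          (p₂ := -(Ln N y b xt - Ln N y c xt) - (Ln N y a xt - Ln N y b xt))
          (p₃ := Ln N y a xt - Ln N y b xt) (by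
          intro x
          have := hcon x
          simp only [LinearMap.sub_apply, LinearMap.smul_apply, smul_eq_mul] at this
          linarith)
        apply hK
        exact ⟨by linarith [h7.2.2], by linarith [h7.1]⟩
      · intro _ _ _ _ _ _
        refine ⟨?_, ?_⟩
        · simp only [LinearMap.sub_apply, LinearMap.smul_apply, smul_eq_mul]
          ring
        · intro x hx hx'
          simp only at hx hx'
          simp only [LinearMap.sub_apply, LinearMap.smul_apply, smul_eq_mul]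
          rw [hx, hx']
          ring
  choose Λ hΛ1 hΛ2 using hΛ
  obtain ⟨xs, hPs, hNs, hms, hgen⟩ := exists_start ha hs Λ hΛ1
  -- the segment
  set R : ι → ι → Prop := fun a b => N a y < 0 ∧ N b y < 0 ∧ a ≠ b ∧ IsRidge N P a b with hR
  by_contra hcon
  set C : Finset ι := Finset.univ.filter (fun w => N w y < 0 ∧ Relation.ReflTransGen R s w) with hC
  set C' : Finset ι := Finset.univ.filter (fun w => N w y < 0 ∧ ¬ Relation.ReflTransGen R s w)
    with hC'
  have hsC : s ∈ C := by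
    rw [hC, Finset.mem_filter]
    exact ⟨Finset.mem_univ _, hs, Relation.ReflTransGen.refl⟩
  have htC : t ∈ C' := by
    rw [hC', Finset.mem_filter]
    exact ⟨Finset.mem_univ _, ht, hcon⟩
  let X : ℝ → V := fun r => xs + r • (xt - xs)
  have hX : ∀ (f : Dual ℝ V) (r : ℝ), f (X r) = f xs + r * (f xt - f xs) := by
    intro f r
    show f (xs + r • (xt - xs)) = _
    rw [map_add, map_smul, map_sub, smul_eq_mul]
  let φ : ℝ → ℝ := fun r => C.inf' ⟨s, hsC⟩ (fun w => Ln N y w (X r))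
  let φ' : ℝ → ℝ := fun r => C'.inf' ⟨t, htC⟩ (fun w => Ln N y w (X r))
  have hcont : Continuous φ := by
    apply Continuous.finset_inf'_apply
    intro w _
    have : (fun r => Ln N y w (X r)) =
        fun r => Ln N y w xs + r * (Ln N y w xt - Ln N y w xs) := by
      funext r
      exact hX _ r
    rw [this]
    fun_prop
  have hcont' : Continuous φ' := by
    apply Continuous.finset_inf'_apply
    intro w _
    have : (fun r => Ln N y w (X r)) =
        fun r => Ln N y w xs + r * (Ln N y w xt - Ln N y w xs) := by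
      funext r
      exact hX _ r
    rw [this]
    fun_prop
  have hX0 : X 0 = xs := by simp [X]
  have hX1 : X 1 = xt := by simp [X]
  have h0 : φ 0 ≤ φ' 0 := by
    apply Finset.le_inf'
    intro w hw
    rw [hC', Finset.mem_filter] at hw
    have hws : w ≠ s := by
      rintro rfl
      exact hw.2.2 Relation.ReflTransGen.refl
    have h1 : φ 0 ≤ Ln N y s (X 0) := Finset.inf'_le _ hsC
    have h2 := hms w hw.2.1 hws
    rw [hX0] at h1 ⊢
    linarith
  have h1 : φ' 1 ≤ φ 1 := by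
    apply Finset.le_inf'
    intro w hw
    rw [hC, Finset.mem_filter] at hw
    have hwt : w ≠ t := by
      rintro rfl
      exact hcon hw.2.2
    have h1 : φ' 1 ≤ Ln N y t (X 1) := Finset.inf'_le _ htC
    have h2 := hmt w hw.2.1 hwt
    rw [hX1] at h1 ⊢
    linarith
  obtain ⟨r, hr, hrφ⟩ : ∃ r ∈ Set.Icc (0 : ℝ) 1, φ r = φ' r := by
    have h2 := intermediate_value_Icc (zero_le_one' ℝ)
      ((hcont.sub hcont').continuousOn (s := Set.Icc 0 1))
    have h3 : (0 : ℝ) ∈ Set.Icc ((fun r => φ r - φ' r) 0) ((fun r => φ r - φ' r) 1) := by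
      simp only [Set.mem_Icc]
      constructor <;> linarith
    obtain ⟨r, hr, hr2⟩ := h2 h3
    refine ⟨r, hr, ?_⟩
    have : φ r - φ' r = 0 := hr2
    linarith
  obtain ⟨u, huC, hu⟩ := Finset.exists_mem_eq_inf' ⟨s, hsC⟩ (fun w => Ln N y w (X r))
  obtain ⟨v, hvC, hv⟩ := Finset.exists_mem_eq_inf' ⟨t, htC⟩ (fun w => Ln N y w (X r))
  have hu' : φ r = Ln N y u (X r) := hu
  have hv' : φ' r = Ln N y v (X r) := hv
  have hmin : ∀ w, N w y < 0 → φ r ≤ Ln N y w (X r) := by
    intro w hw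
    by_cases hwC : Relation.ReflTransGen R s w
    · exact Finset.inf'_le (fun w => Ln N y w (X r)) (by
        rw [hC, Finset.mem_filter]
        exact ⟨Finset.mem_univ _, hw, hwC⟩)
    · rw [hrφ]
      exact Finset.inf'_le (fun w => Ln N y w (X r)) (by
        rw [hC', Finset.mem_filter]
        exact ⟨Finset.mem_univ _, hw, hwC⟩)
  rw [hC, Finset.mem_filter] at huC
  rw [hC', Finset.mem_filter] at hvC
  have huv : u ≠ v := by
    rintro rfl
    exact hvC.2.2 huC.2.2
  have hr1 : r ≠ 1 := by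
    rintro rfl
    have hut : u ≠ t := by
      rintro rfl
      exact hcon huC.2.2
    have h2 := hmt u huC.2.1 hut
    have h3 := hmin t ht
    rw [hu', hX1] at h3
    linarith
  have hstrict : ∀ w, N w y < 0 → w ≠ u → w ≠ v → φ r < Ln N y w (X r) := by
    intro w hw hwu hwv
    refine lt_of_le_of_ne (hmin w hw) ?_
    intro heq
    have h2 := hΛ2 (u, v, w) huC.2.1 hvC.2.1 hw huv hwv.symm hwu.symm
    have h3 := h2.2 (X r) (by simp only; rw [← hu', ← hv', hrφ])
      (by simp only; rw [← hv', ← hrφ, heq])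
    rw [hX, h2.1] at h3
    have h4 : (1 - r) * Λ (u, v, w) xs = 0 := by linarith
    rcases mul_eq_zero.mp h4 with h5 | h5
    · apply hr1
      linarith
    · exact hgen (u, v, w) h5
  -- positivity on the segment
  have hpos : ∀ f : Dual ℝ V, 0 < f xs → 0 < f xt → 0 < f (X r) := by
    intro f h2 h3
    rw [hX]
    have h4 : r < 1 := lt_of_le_of_ne hr.2 hr1
    have h5 : 0 ≤ r * f xt := mul_nonneg hr.1 h3.le
    have h6 : 0 < (1 - r) * f xs := mul_pos (by linarith) h2
    linarith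
  have hNpos : ∀ w, 0 < N w (X r) := fun w => hpos _ (hNs w) (hNt w)
  have hlam : 0 < φ r := by
    rw [hu']
    exact (Ln_pos huC.2.1).mpr (hNpos u)
  have hval : ∀ w, N w y < 0 → N w (X r + φ r • y) = (-(N w y)) * (Ln N y w (X r) - φ r) := by
    intro w hw
    rw [map_add, map_smul, Ln_apply, smul_eq_mul, mul_sub, ← mul_assoc,
      mul_inv_cancel₀ (by linarith), one_mul]
    ring
  have hridge : IsRidge N P u v := by
    refine ⟨X r + φ r • y, ?_, ?_, ?_, ?_⟩
    · rw [map_add, map_smul, smul_eq_mul]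
      have := hpos P hPs hPt
      positivity
    · rw [hval u huC.2.1, ← hu', sub_self, mul_zero]
    · rw [hval v hvC.2.1, ← hv', hrφ, sub_self, mul_zero]
    · intro w hwu hwv
      by_cases hw : N w y < 0
      · rw [hval w hw]
        exact mul_pos (by linarith) (by linarith [hstrict w hw hwu hwv])
      · push Not at hw
        rw [map_add, map_smul, smul_eq_mul]
        have := hNpos w
        positivity
  exact hvC.2.2 (huC.2.2.tail ⟨huC.2.1, hvC.2.1, huv, hridge⟩)

end Pool.Agent.Helper65.L1
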